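import Pool.Agent.DQ2.Stmts

set_option autoImplicit false

open MvPolynomial

namespace Pool.Agent.DQ2.H8

theorem charZero_KK (n d : ℕ) : CharZero (LDP.KK n d) := by
  have h : Function.Injective (algebraMap (LDP.AA n d) (LDP.KK n d)) :=
    IsFractionRing.injective (LDP.AA n d) (LDP.KK n d)
  have h2 : CharZero (LDP.AA n d) := by
    unfold LDP.AA
    infer_instance
  exact charZero_of_injective_algebraMap h

theorem fin (hA : ASM) (hT : TWP) (h2 : DM2) (h3 : DM3) : FIN := by
  intro n d k hn hd hk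
  rcases hd with rfl | rfl
  · obtain ⟨L, i1, i2, Φ, hfd, hfr, hdom⟩ := h2 n k hn hk
    have := charZero_KK n 2
    have h := hA (LDP.KK n 2) L (Fin (n + 2)) (n + 2) (LDP.FK n 2) Φ (by rw [hfr]; omega)
      (hT n 2 hn (by norm_num)) hdom
    rw [hfr] at h
    exact h
  · obtain ⟨L, i1, i2, Φ, hfd, hfr, hdom⟩ := h3 n k hn hk
    have := charZero_KK n 3
    have h := hA (LDP.KK n 3) L (Fin (n + 2) ⊕ Fin (n + 2)) (n + 2) (LDP.FK n 3) Φ
      (by rw [hfr]; omega) (hT n 3 hn (by norm_num)) hdom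
    rw [hfr] at h
    exact h

end Pool.Agent.DQ2.H8
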